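import Mathlib

open Filter Topology MeasureTheory Set Cardinal
open scoped Pointwise

namespace Pool.Agent.Results.MP_4d4a97_an.MazurUlam

noncomputable section

/-- The open interval `(a, b)` of real numbers with extended real endpoints. -/
def J (a b : EReal) : Set ℝ := {x : ℝ | a < (x : EReal) ∧ (x : EReal) < b}

/-- A partial real function: `none` where it is not defined. -/
abbrev PF := ℝ → Option ℝ

open Classical in
/-- The restriction of a total function to `(a, b)`, as a partial function. -/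
def gen (a b : EReal) (f : ℝ → ℝ) : PF := fun x => if x ∈ J a b then some (f x) else none

open Classical in
/-- The rational combination `P(g₁,…,g_m)/Q(g₁,…,g_m)` on `(a, b)`: defined where all `g_i` are
defined and the denominator does not vanish. -/
def rat (a b : EReal) {m : ℕ} (g : Fin m → PF) (P Q : MvPolynomial (Fin m) ℝ) : PF := fun x =>
  if x ∈ J a b ∧ (∀ i, (g i x).isSome) ∧ MvPolynomial.eval (fun i => (g i x).getD 0) Q ≠ 0 then
    some (MvPolynomial.eval (fun i => (g i x).getD 0) P /
      MvPolynomial.eval (fun i => (g i x).getD 0) Q)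
  else none

/-- Composition `h ∘ k` of partial functions. -/
def comp (h k : PF) : PF := fun x => (k x).bind h

/-- `InR a b f g`: the partial function `g` belongs to `R(f₁,…,f_n)`, the smallest set of partial
functions on `(a, b)` containing the `f_i` and closed under rational combinations and
composition. -/
inductive InR (a b : EReal) {n : ℕ} (f : Fin n → ℝ → ℝ) : PF → Prop
  | gen (i : Fin n) : InR a b f (gen a b (f i))
  | rat (m : ℕ) (g : Fin m → PF) (P Q : MvPolynomial (Fin m) ℝ) (hg : ∀ i, InR a b f (g i)) :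
      InR a b f (rat a b g P Q)
  | comp (h k : PF) (hh : InR a b f h) (hk : InR a b f k) : InR a b f (comp h k)

/-- `g` is defined almost everywhere on `(α, β)` and summable there. -/
def Summable' (g : PF) (α β : EReal) : Prop :=
  (∀ᵐ x ∂(volume.restrict (J α β)), (g x).isSome) ∧
    IntegrableOn (fun x => (g x).getD 0) (J α β)

/-- The indefinite integral of `g` from `α`. -/
def indef (g : PF) (α : EReal) (x : ℝ) : ℝ := ∫ t in J α x, (g t).getD 0

/-! ### Cantor codes -/

/-- the Cantor map with ratio `1/16` -/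
def Ca (d : ℕ → Bool) : ℝ := cantorFunction (1 / 16) d

/-- shift of a 0-1 sequence -/
def sh (d : ℕ → Bool) : ℕ → Bool := fun n => d (n + 1)

/-- a bit as a real number -/
def bit (b : Bool) : ℝ := cond b 1 0

lemma Ca_succ (d : ℕ → Bool) : Ca d = bit (d 0) + (1 / 16) * Ca (sh d) := by
  unfold Ca bit sh
  exact cantorFunction_succ d (by norm_num) (by norm_num)

lemma Ca_nonneg (d : ℕ → Bool) : 0 ≤ Ca d := by
  unfold Ca cantorFunction
  exact tsum_nonneg fun n => cantorFunctionAux_nonneg (by norm_num)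

lemma Ca_le (d : ℕ → Bool) : Ca d ≤ 16 / 15 := by
  have h : Ca d ≤ cantorFunction (1 / 16) fun _ => true :=
    cantorFunction_le (by norm_num) (by norm_num) fun _ _ => rfl
  have h2 : cantorFunction (1 / 16) (fun _ => true) = 16 / 15 := by
    have := cantorFunction_succ (c := 1 / 16) (fun _ => true) (by norm_num) (by norm_num)
    simp only [cond_true] at this
    linarith
  linarith

/-- double code -/
def V (d e : ℕ → Bool) : ℝ := Ca d + 2 * Ca e

lemma V_nonneg (d e : ℕ → Bool) : 0 ≤ V d e := by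
  have h1 := Ca_nonneg d
  have h2 := Ca_nonneg e
  unfold V; linarith

lemma V_le (d e : ℕ → Bool) : V d e ≤ 16 / 5 := by
  have h1 := Ca_le d
  have h2 := Ca_le e
  unfold V; linarith

lemma V_succ (d e : ℕ → Bool) :
    V d e = (bit (d 0) + 2 * bit (e 0)) + (1 / 16) * V (sh d) (sh e) := by
  unfold V; rw [Ca_succ d, Ca_succ e]; ring

lemma bits_eq {a b a' b' : Bool} (h : |bit a + 2 * bit b - (bit a' + 2 * bit b')| < 1) :
    a = a' ∧ b = b' := by
  rw [abs_lt] at h
  unfold bit at h
  cases a <;> cases b <;> cases a' <;> cases b' <;> simp only [cond_true, cond_false] at h <;>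
    first
    | exact ⟨rfl, rfl⟩
    | (exfalso; linarith [h.1, h.2])

lemma V_step {d e d' e' : ℕ → Bool} (h : V d e = V d' e') :
    d 0 = d' 0 ∧ e 0 = e' 0 ∧ V (sh d) (sh e) = V (sh d') (sh e') := by
  have h1 := V_succ d e
  have h2 := V_succ d' e'
  have b1 := V_nonneg (sh d) (sh e)
  have b2 := V_nonneg (sh d') (sh e')
  have b3 := V_le (sh d) (sh e)
  have b4 := V_le (sh d') (sh e')
  have h3 : |bit (d 0) + 2 * bit (e 0) - (bit (d' 0) + 2 * bit (e' 0))| < 1 := by
    rw [abs_lt]
    constructor <;> linarith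
  obtain ⟨h4, h5⟩ := bits_eq h3
  refine ⟨h4, h5, ?_⟩
  rw [h4, h5] at h1
  linarith

lemma V_inj {d e d' e' : ℕ → Bool} (h : V d e = V d' e') : d = d' ∧ e = e' := by
  have key : ∀ n : ℕ, ∀ d e d' e' : ℕ → Bool, V d e = V d' e' → d n = d' n ∧ e n = e' n := by
    intro n
    induction n with
    | zero => intro d e d' e' h; exact ⟨(V_step h).1, (V_step h).2.1⟩
    | succ n ih =>
      intro d e d' e' h
      exact ih (sh d) (sh e) (sh d') (sh e') (V_step h).2.2
  exact ⟨funext fun n => (key n d e d' e' h).1, funext fun n => (key n d e d' e' h).2⟩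

/-- the set of all double codes -/
def N : Set ℝ := {v | ∃ d e, v = V d e}

lemma N_null : volume N = 0 := by
  have hsub : N ⊆ ((0 : ℝ) +ᵥ ((1 / 16 : ℝ) • N)) ∪ ((1 : ℝ) +ᵥ ((1 / 16 : ℝ) • N)) ∪
      (((2 : ℝ) +ᵥ ((1 / 16 : ℝ) • N)) ∪ ((3 : ℝ) +ᵥ ((1 / 16 : ℝ) • N))) := by
    rintro v ⟨d, e, rfl⟩
    have hmem : ∀ c : ℝ, bit (d 0) + 2 * bit (e 0) = c → V d e ∈ (c +ᵥ ((1 / 16 : ℝ) • N)) := by
      intro c hc
      rw [Set.mem_vadd_set]
      refine ⟨(1 / 16 : ℝ) * V (sh d) (sh e), ?_, ?_⟩
      · rw [Set.mem_smul_set]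
        exact ⟨V (sh d) (sh e), ⟨_, _, rfl⟩, rfl⟩
      · rw [V_succ d e, hc]; rfl
    rcases hd : d 0 with _ | _ <;> rcases he : e 0 with _ | _
    · left; left; apply hmem; rw [hd, he]; simp [bit]
    · right; left; apply hmem; rw [hd, he]; simp [bit]
    · left; right; apply hmem; rw [hd, he]; simp [bit]
    · right; right; apply hmem; rw [hd, he]; simp [bit]; norm_num
  have hvol : ∀ c : ℝ, volume (c +ᵥ ((1 / 16 : ℝ) • N)) = ENNReal.ofReal (1 / 16) * volume N := by
    intro c
    rw [measure_vadd, Measure.addHaar_smul]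
    simp
  have hfin : volume N ≠ ⊤ := by
    have : N ⊆ Icc 0 4 := by
      rintro v ⟨d, e, rfl⟩
      exact ⟨V_nonneg d e, (V_le d e).trans (by norm_num)⟩
    exact ne_top_of_le_ne_top (by simp) (measure_mono this)
  have h4 : volume N ≤ ENNReal.ofReal (1 / 4) * volume N := by
    calc volume N ≤ _ := measure_mono hsub
      _ ≤ (volume ((0 : ℝ) +ᵥ ((1 / 16 : ℝ) • N)) + volume ((1 : ℝ) +ᵥ ((1 / 16 : ℝ) • N))) +
          (volume ((2 : ℝ) +ᵥ ((1 / 16 : ℝ) • N)) + volume ((3 : ℝ) +ᵥ ((1 / 16 : ℝ) • N))) :=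
        (measure_union_le _ _).trans (add_le_add (measure_union_le _ _) (measure_union_le _ _))
      _ = ENNReal.ofReal (1 / 4) * volume N := by
        rw [hvol, hvol, hvol, hvol, ← add_mul, ← add_mul, ← ENNReal.ofReal_add (by norm_num)
          (by norm_num), ← ENNReal.ofReal_add (by norm_num) (by norm_num)]
        norm_num
  have h5 := ENNReal.toReal_mono (ENNReal.mul_ne_top ENNReal.ofReal_ne_top hfin) h4
  rw [ENNReal.toReal_mul, ENNReal.toReal_ofReal (by norm_num)] at h5
  have h6 : (volume N).toReal = 0 := le_antisymm (by linarith) ENNReal.toReal_nonneg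
  rcases (ENNReal.toReal_eq_zero_iff _).1 h6 with h | h
  · exact h
  · exact absurd h hfin

lemma Ca_measurable : Measurable Ca := by
  apply Continuous.measurable
  unfold Ca cantorFunction
  refine continuous_tsum (u := fun n => (1 / 16 : ℝ) ^ n) ?_ ?_ ?_
  · intro n
    unfold cantorFunctionAux
    have : Continuous fun b : Bool => cond b ((1 / 16 : ℝ) ^ n) 0 := continuous_of_discreteTopology
    exact this.comp (continuous_apply n)
  · exact summable_geometric_of_lt_one (by norm_num) (by norm_num)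
  · intro n f
    rw [Real.norm_eq_abs, abs_of_nonneg (cantorFunctionAux_nonneg (by norm_num))]
    unfold cantorFunctionAux
    cases f n <;> simp

/-- measurable equivalence of the line with the Cantor space -/
def code : ℝ ≃ᵐ (ℕ → Bool) := PolishSpace.measurableEquivNatBoolOfNotCountable (by
  intro h
  exact not_countable_real (Set.countable_univ_iff.2 h))

/-- an injection of the continuous functions into the Cantor space -/
lemma exists_ccode : ∃ c : C(ℝ, ℝ) → (ℕ → Bool), Function.Injective c := by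
  have h1 : Function.Injective (fun (H : C(ℝ, ℝ)) (q : ℚ) => H q) := by
    intro H K hHK
    have : (fun x => H x) = fun x => K x := by
      apply Continuous.ext_on Rat.denseRange_cast H.continuous K.continuous
      rintro x ⟨q, rfl⟩
      exact congrFun hHK q
    exact ContinuousMap.ext fun x => congrFun this x
  have h2 : #C(ℝ, ℝ) ≤ #(ℕ → Bool) := by
    calc #C(ℝ, ℝ) ≤ #(ℚ → ℝ) := mk_le_of_injective h1
      _ = #(ℕ → Bool) := by
        simp [Cardinal.mk_real]
  exact ⟨_, (Classical.choice (Cardinal.le_def _ _ |>.1 h2)).injective⟩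

/-- an injective integrable function with values in `[-1, 1]` -/
def th (x : ℝ) : ℝ := if 0 ≤ x then (1 + x ^ 2)⁻¹ else -(1 + x ^ 2)⁻¹

lemma th_abs (x : ℝ) : |th x| = (1 + x ^ 2)⁻¹ := by
  have : 0 < (1 + x ^ 2)⁻¹ := by positivity
  unfold th
  split_ifs
  · exact abs_of_pos this
  · rw [abs_neg, abs_of_pos this]

lemma th_abs_le (x : ℝ) : |th x| ≤ 1 := by
  rw [th_abs]
  apply inv_le_one_of_one_le₀
  nlinarith [sq_nonneg x]

lemma th_inj : Function.Injective th := by
  intro x y hxy
  have h1 : (1 + x ^ 2)⁻¹ = (1 + y ^ 2)⁻¹ := by rw [← th_abs, ← th_abs, hxy]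
  have h2 : x ^ 2 = y ^ 2 := by
    have := inv_injective h1
    linarith
  have px : 0 < (1 + x ^ 2)⁻¹ := by positivity
  have py : 0 < (1 + y ^ 2)⁻¹ := by positivity
  unfold th at hxy
  split_ifs at hxy with hx hy hy
  · nlinarith [sq_nonneg (x - y), sq_nonneg (x + y), (sq_eq_sq₀ hx hy).1 h2]
  · linarith
  · linarith
  · have h3 : (-x) ^ 2 = (-y) ^ 2 := by rw [neg_sq, neg_sq]; exact h2
    have := (sq_eq_sq₀ (by linarith : 0 ≤ -x) (by linarith : 0 ≤ -y)).1 h3
    linarith

lemma th_measurable : Measurable th := by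
  unfold th
  apply Measurable.ite measurableSet_Ici <;> fun_prop

lemma th_integrable : Integrable th := by
  refine Integrable.mono' integrable_inv_one_add_sq th_measurable.aestronglyMeasurable ?_
  filter_upwards with x
  rw [Real.norm_eq_abs, th_abs]

/-- second generator: the Cantor code on a small interval, zero elsewhere -/
def f2 (p r : ℝ) (y : ℝ) : ℝ := if |y - p| ≤ r then Ca (code ((y - p) / r)) else 0

lemma f2_integrable (p r : ℝ) : Integrable (f2 p r) := by
  have hm : Measurable (f2 p r) := by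
    unfold f2
    apply Measurable.ite
    · exact (isClosed_le (by fun_prop) continuous_const).measurableSet
    · exact Ca_measurable.comp (code.measurable.comp (by fun_prop))
    · exact measurable_const
  have hb : IntegrableOn (fun _ : ℝ => (16 / 15 : ℝ)) (Icc (p - r) (p + r)) := by
    apply integrableOn_const (by simp)
  rw [← integrable_indicator_iff measurableSet_Icc] at hb
  refine Integrable.mono' hb hm.aestronglyMeasurable ?_
  filter_upwards with y
  unfold f2
  by_cases h : |y - p| ≤ r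
  · rw [if_pos h, Real.norm_eq_abs, abs_of_nonneg (Ca_nonneg _)]
    have : y ∈ Icc (p - r) (p + r) := by
      rw [abs_le] at h
      exact ⟨by linarith [h.1], by linarith [h.2]⟩
    rw [indicator_of_mem this]
    exact Ca_le _
  · rw [if_neg h, norm_zero]
    exact indicator_nonneg (fun _ _ => by norm_num) _

/-- the point coding `(x, H)` -/
def E (p r : ℝ) (cc : C(ℝ, ℝ) → (ℕ → Bool)) (x : ℝ) (H : C(ℝ, ℝ)) : ℝ :=
  p + r / 4 * V (code (th x)) (cc H)

open Classical in
/-- third generator: decodes `(x, H)` and returns `H x`; zero off a null set -/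
def f3 (p r : ℝ) (cc : C(ℝ, ℝ) → (ℕ → Bool)) (y : ℝ) : ℝ :=
  if h : ∃ (x : ℝ) (H : C(ℝ, ℝ)), y = E p r cc x H then h.choose_spec.choose h.choose else 0

lemma E_inj {p r : ℝ} (hr : 0 < r) {cc : C(ℝ, ℝ) → (ℕ → Bool)} (hcc : Function.Injective cc)
    {x x' : ℝ} {H H' : C(ℝ, ℝ)} (h : E p r cc x H = E p r cc x' H') : x = x' ∧ H = H' := by
  unfold E at h
  have h1 : V (code (th x)) (cc H) = V (code (th x')) (cc H') := by
    have h2 : r / 4 * V (code (th x)) (cc H) = r / 4 * V (code (th x')) (cc H') := by linarith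
    exact mul_left_cancel₀ (by positivity) h2
  obtain ⟨h3, h4⟩ := V_inj h1
  exact ⟨th_inj (code.injective h3), hcc h4⟩

lemma f3_E {p r : ℝ} (hr : 0 < r) {cc : C(ℝ, ℝ) → (ℕ → Bool)} (hcc : Function.Injective cc)
    (x : ℝ) (H : C(ℝ, ℝ)) : f3 p r cc (E p r cc x H) = H x := by
  have h : ∃ (x' : ℝ) (H' : C(ℝ, ℝ)), E p r cc x H = E p r cc x' H' := ⟨x, H, rfl⟩
  rw [f3, dif_pos h]
  obtain ⟨h1, h2⟩ := E_inj hr hcc h.choose_spec.choose_spec
  rw [← h2, ← h1]

lemma f3_integrable (p r : ℝ) (cc : C(ℝ, ℝ) → (ℕ → Bool)) : Integrable (f3 p r cc) := by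
  have hnull : volume (p +ᵥ ((r / 4) • N)) = 0 := by
    rw [measure_vadd, Measure.addHaar_smul, N_null, mul_zero]
  have hae : f3 p r cc =ᵐ[volume] 0 := by
    have : ∀ᵐ y, y ∉ (p +ᵥ ((r / 4) • N)) := measure_eq_zero_iff_ae_notMem.1 hnull
    filter_upwards [this] with y hy
    unfold f3
    rw [dif_neg]
    · rfl
    · rintro ⟨x, H, rfl⟩
      apply hy
      rw [Set.mem_vadd_set]
      refine ⟨r / 4 * V (code (th x)) (cc H), ?_, rfl⟩
      rw [Set.mem_smul_set]
      exact ⟨_, ⟨_, _, rfl⟩, rfl⟩
  exact (integrable_zero ℝ ℝ volume).congr hae.symm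

lemma J_isOpen (a b : EReal) : IsOpen (J a b) := by
  have : J a b = ((↑) : ℝ → EReal) ⁻¹' (Ioo a b) := rfl
  rw [this]
  exact isOpen_Ioo.preimage continuous_coe_real_ereal

/-- every continuous function on the line is, on `(a, b)`, in `R` -/
lemma continuous_mem {a b : EReal} {p r : ℝ} (hr : 0 < r) (hJ : ∀ y, |y - p| ≤ r → y ∈ J a b)
    {cc : C(ℝ, ℝ) → (ℕ → Bool)} (hcc : Function.Injective cc) (H : C(ℝ, ℝ)) :
    ∃ h : PF, InR a b ![th, f2 p r, f3 p r cc] h ∧ ∀ x ∈ J a b, h x = some (H x) := by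
  set f : Fin 3 → ℝ → ℝ := ![th, f2 p r, f3 p r cc] with hf
  have g0 : InR a b f (gen a b th) := InR.gen (f := f) 0
  have g1 : InR a b f (gen a b (f2 p r)) := InR.gen (f := f) 1
  have g2 : InR a b f (gen a b (f3 p r cc)) := InR.gen (f := f) 2
  -- p + r θ(x)
  set A : PF := rat a b (fun _ : Fin 1 => gen a b th)
    (MvPolynomial.C p + MvPolynomial.C r * MvPolynomial.X 0) 1 with hA
  have hAR : InR a b f A := InR.rat _ _ _ _ fun _ => g0
  have hAe : ∀ x ∈ J a b, A x = some (p + r * th x) := by
    intro x hx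
    simp [hA, rat, gen, hx]
  set B : PF := comp (gen a b (f2 p r)) A with hB
  have hBR : InR a b f B := InR.comp _ _ g1 hAR
  have hBe : ∀ x ∈ J a b, B x = some (Ca (code (th x))) := by
    intro x hx
    have hmem : p + r * th x ∈ J a b := by
      apply hJ
      rw [add_sub_cancel_left, abs_mul, abs_of_pos hr]
      nlinarith [th_abs_le x]
    have hle : |p + r * th x - p| ≤ r := by
      rw [add_sub_cancel_left, abs_mul, abs_of_pos hr]
      nlinarith [th_abs_le x]
    simp only [hB, comp, hAe x hx, Option.bind_some, gen, if_pos hmem, f2, if_pos hle]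
    congr 3
    rw [add_sub_cancel_left]
    field_simp
  set D : PF := rat a b (fun _ : Fin 1 => B)
    (MvPolynomial.C p + MvPolynomial.C (r / 4) *
      (MvPolynomial.X 0 + MvPolynomial.C (2 * Ca (cc H)))) 1 with hD
  have hDR : InR a b f D := InR.rat _ _ _ _ fun _ => hBR
  have hDe : ∀ x ∈ J a b, D x = some (E p r cc x H) := by
    intro x hx
    simp [hD, rat, hBe x hx, hx, E, V]
  refine ⟨comp (gen a b (f3 p r cc)) D, InR.comp _ _ g2 hDR, ?_⟩
  intro x hx
  have hmem : E p r cc x H ∈ J a b := by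
    apply hJ
    unfold E
    have h1 := V_nonneg (code (th x)) (cc H)
    have h2 := V_le (code (th x)) (cc H)
    rw [add_sub_cancel_left, abs_of_nonneg (by positivity)]
    nlinarith
  simp only [comp, hDe x hx, Option.bind_some, gen, if_pos hmem, f3_E hr hcc]

/-- The answer to the question of Mazur and Ulam is negative: on every interval `(a, b)` there are
three summable functions such that every indefinite integral of a summable member of `R` is again
in `R`. -/
theorem result : ∀ a b : EReal, a < b → ∃ (n : ℕ) (f : Fin n → ℝ → ℝ),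
    (∀ i, IntegrableOn (f i) (J a b)) ∧
    ∀ g : PF, InR a b f g → ∀ α β : EReal, a ≤ α → α < β → β ≤ b → Summable' g α β →
      ∃ h : PF, InR a b f h ∧ ∀ x ∈ J α β, h x = some (indef g α x) := by
  intro a b hab
  obtain ⟨p, hp1, hp2⟩ := EReal.lt_iff_exists_real_btwn.1 hab
  have hpJ : p ∈ J a b := ⟨hp1, hp2⟩
  obtain ⟨ε, hε, hball⟩ := Metric.isOpen_iff.1 (J_isOpen a b) p hpJ
  have hJ : ∀ y, |y - p| ≤ ε / 2 → y ∈ J a b := by
    intro y hy
    apply hball
    rw [Metric.mem_ball, Real.dist_eq]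
    linarith
  obtain ⟨cc, hcc⟩ := exists_ccode
  refine ⟨3, ![th, f2 p (ε / 2), f3 p (ε / 2) cc], ?_, ?_⟩
  · intro i
    fin_cases i
    · exact th_integrable.integrableOn
    · exact (f2_integrable _ _).integrableOn
    · exact (f3_integrable _ _ _).integrableOn
  · intro g _ α β hα hαβ hβ hg
    obtain ⟨-, hgi⟩ := hg
    set G : ℝ → ℝ := (J α β).indicator fun x => (g x).getD 0 with hG
    have hGi : Integrable G := (integrable_indicator_iff (J_isOpen α β).measurableSet).2 hgi
    have hcont : Continuous fun x : ℝ => (∫ t in Iic (0 : ℝ), G t) + ∫ t in (0 : ℝ)..x, G t :=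
      continuous_const.add (intervalIntegral.continuous_primitive
        (fun _ _ => hGi.intervalIntegrable) 0)
    have hFeq : ∀ x ∈ J α β, (∫ t in Iic (0 : ℝ), G t) + ∫ t in (0 : ℝ)..x, G t = indef g α x := by
      intro x hx
      rw [← intervalIntegral.integral_Iic_sub_Iic hGi.integrableOn hGi.integrableOn]
      have e1 : (∫ t in Iic (0 : ℝ), G t) + ((∫ t in Iic x, G t) - ∫ t in Iic (0 : ℝ), G t) =
          ∫ t in Iio x, G t := by
        rw [← integral_Iic_eq_integral_Iio]; ring
      rw [e1, hG, setIntegral_indicator (J_isOpen α β).measurableSet, indef]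
      have : Iio x ∩ J α β = J α x := by
        ext t
        simp only [Set.mem_inter_iff, Set.mem_Iio, J, Set.mem_ofPred_eq]
        constructor
        · rintro ⟨h1, h2, h3⟩
          exact ⟨h2, by exact_mod_cast h1⟩
        · rintro ⟨h1, h2⟩
          exact ⟨by exact_mod_cast h2, h1, h2.trans hx.2⟩
      rw [this]
    obtain ⟨h, hhR, hh⟩ := continuous_mem (a := a) (b := b) (r := ε / 2) (by linarith) hJ hcc
      ⟨_, hcont⟩
    refine ⟨h, hhR, ?_⟩
    intro x hx
    have hx' : x ∈ J a b := ⟨lt_of_le_of_lt hα hx.1, lt_of_lt_of_le hx.2 hβ⟩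
    rw [hh x hx', ContinuousMap.coe_mk, hFeq x hx]

end

end Pool.Agent.Results.MP_4d4a97_an.MazurUlam
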